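import Pool.Agent.helper68.QZ.Spec

set_option autoImplicit false

namespace Pool.Agent.QZ

open N1f72dd46 Filter MeasureTheory Complex Metric Pool.Agent.helper6.LD
open scoped ComplexConjugate

theorem WK_summable (δ : ℝ) (hδ : 0 < δ) :
    Summable (fun p : Nat.Primes => Real.log (p : ℕ) * Real.exp (-(1 + δ) * Real.log (p : ℕ))) := by
  have h1 : Summable (fun p : Nat.Primes => ((p : ℕ) : ℝ) ^ (-(1 + δ / 2))) :=
    Nat.Primes.summable_rpow.mpr (by linarith)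
  refine Summable.of_nonneg_of_le ?_ ?_ (h1.mul_left (2 / δ))
  · intro p
    exact mul_nonneg (Real.log_nonneg (by exact_mod_cast p.2.one_lt.le)) (Real.exp_pos _).le
  · intro p
    have hp : (0:ℝ) < ((p : ℕ) : ℝ) := by exact_mod_cast p.2.pos
    have h2 : Real.log (p : ℕ) ≤ ((p : ℕ) : ℝ) ^ (δ / 2) / (δ / 2) :=
      Real.log_le_rpow_div hp.le (by linarith)
    have h3 : Real.exp (-(1 + δ) * Real.log (p : ℕ)) = ((p : ℕ) : ℝ) ^ (-(1 + δ)) := by
      rw [Real.rpow_def_of_pos hp, mul_comm]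
    rw [h3]
    have h4 : ((p : ℕ) : ℝ) ^ (-(1 + δ / 2)) = ((p : ℕ) : ℝ) ^ (δ / 2) * ((p : ℕ) : ℝ) ^ (-(1 + δ)) := by
      rw [← Real.rpow_add hp]
      congr 1
      ring
    have h5 : 0 ≤ ((p : ℕ) : ℝ) ^ (-(1 + δ)) := Real.rpow_nonneg hp.le _
    calc Real.log (p : ℕ) * ((p : ℕ) : ℝ) ^ (-(1 + δ))
        ≤ ((p : ℕ) : ℝ) ^ (δ / 2) / (δ / 2) * ((p : ℕ) : ℝ) ^ (-(1 + δ)) :=
          mul_le_mul_of_nonneg_right h2 h5
      _ = 2 / δ * ((p : ℕ) : ℝ) ^ (-(1 + δ / 2)) := by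
          rw [h4]
          field_simp

theorem WK_cont {g s : ℝ} {φ : ℝ → ℝ} (hφ : Good g s φ) : Continuous φ := by
  refine (LipschitzWith.of_dist_le' (K := g) (f := φ) ?_).continuous
  intro u v
  rw [Real.dist_eq, Real.dist_eq]
  exact hφ.lip u v

theorem WK_w_cont (k : ℕ) (s : ℂ) : Continuous (w k s) := by
  unfold w
  fun_prop

theorem WK_J (C : ℝ) (k : ℕ) (δ l g : ℝ) (s : ℂ) (φ : ℝ → ℝ) (hφ : Good g (1 / 4) φ)
    (hPT : ∀ u : ℝ, 0 ≤ u → u ≤ 1 / 4 →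
      ‖w k s (l - u) - w k s (l + u) - w k s l * (Complex.exp (s * u) - Complex.exp (-s * u))‖ ≤
        C * u * ((s.re - 1 - δ) ^ k)⁻¹ * Real.exp (-(1 + δ) * l)) :
    ‖Jk k s φ l - w k s l * Ph s φ‖ ≤
      (∫ u in (0 : ℝ)..(1 / 4), φ u * u) * (C * ((s.re - 1 - δ) ^ k)⁻¹ * Real.exp (-(1 + δ) * l)) := by
  have hc := WK_cont hφ
  have hw := WK_w_cont k s
  have h1 : Jk k s φ l - w k s l * Ph s φ = ∫ u in (0 : ℝ)..(1 / 4), (φ u : ℂ) *
      (w k s (l - u) - w k s (l + u) - w k s l * (Complex.exp (s * u) - Complex.exp (-s * u))) := by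
    unfold Jk Ph
    rw [← intervalIntegral.integral_const_mul, ← intervalIntegral.integral_sub]
    · refine intervalIntegral.integral_congr fun u _ => ?_
      show (φ u : ℂ) * (w k s (l - u) - w k s (l + u)) -
        w k s l * ((φ u : ℂ) * (Complex.exp (s * u) - Complex.exp (-s * u))) = _
      ring
    · refine Continuous.intervalIntegrable ?_ _ _
      fun_prop
    · refine Continuous.intervalIntegrable ?_ _ _
      fun_prop
  rw [h1, ← intervalIntegral.integral_mul_const]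
  refine intervalIntegral.norm_integral_le_of_norm_le (by norm_num) ?_ ?_
  · refine ae_of_all _ fun u hu => ?_
    have h2 := hPT u hu.1.le hu.2
    rw [norm_mul, Complex.norm_real, Real.norm_eq_abs, abs_of_nonneg (hφ.nonneg u)]
    calc φ u * ‖w k s (l - u) - w k s (l + u) - w k s l * (Complex.exp (s * u) - Complex.exp (-s * u))‖
        ≤ φ u * (C * u * ((s.re - 1 - δ) ^ k)⁻¹ * Real.exp (-(1 + δ) * l)) :=
          mul_le_mul_of_nonneg_left h2 (hφ.nonneg u)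
      _ = _ := by ring
  · refine Continuous.intervalIntegrable ?_ _ _
    fun_prop

theorem WK_J2 (C : ℝ) (k : ℕ) (δ l g σ : ℝ) (φ : ℝ → ℝ) (hφ : Good g (1 / 4) φ) (hσ : 0 ≤ σ)
    (hPT : ∀ u : ℝ, 0 ≤ u → u ≤ 1 / 4 →
      ‖w k (σ : ℂ) l‖ * (Real.exp (σ * u) - Real.exp (-σ * u)) ≤
        C * u * ((σ - 1 - δ) ^ k)⁻¹ * Real.exp (-(1 + δ) * l)) :
    ‖w k (σ : ℂ) l * Ph (σ : ℂ) φ‖ ≤
      (∫ u in (0 : ℝ)..(1 / 4), φ u * u) * (C * ((σ - 1 - δ) ^ k)⁻¹ * Real.exp (-(1 + δ) * l)) := by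
  have hc := WK_cont hφ
  unfold Ph
  rw [← intervalIntegral.integral_const_mul, ← intervalIntegral.integral_mul_const]
  refine intervalIntegral.norm_integral_le_of_norm_le (by norm_num) ?_ ?_
  · refine ae_of_all _ fun u hu => ?_
    have h2 := hPT u hu.1.le hu.2
    have h3 : Complex.exp ((σ : ℂ) * u) - Complex.exp (-(σ : ℂ) * u) =
        ((Real.exp (σ * u) - Real.exp (-σ * u) : ℝ) : ℂ) := by
      push_cast
      rfl
    have h4 : 0 ≤ Real.exp (σ * u) - Real.exp (-σ * u) := by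
      rw [sub_nonneg]
      apply Real.exp_le_exp.mpr
      have := mul_nonneg hσ hu.1.le
      linarith
    rw [h3, norm_mul, norm_mul, Complex.norm_real, Complex.norm_real, Real.norm_eq_abs,
      Real.norm_eq_abs, abs_of_nonneg (hφ.nonneg u), abs_of_nonneg h4]
    calc ‖w k (σ : ℂ) l‖ * (φ u * (Real.exp (σ * u) - Real.exp (-σ * u)))
        = φ u * (‖w k (σ : ℂ) l‖ * (Real.exp (σ * u) - Real.exp (-σ * u))) := by ring
      _ ≤ φ u * (C * u * ((σ - 1 - δ) ^ k)⁻¹ * Real.exp (-(1 + δ) * l)) :=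
          mul_le_mul_of_nonneg_left h2 (hφ.nonneg u)
      _ = _ := by ring
  · refine Continuous.intervalIntegrable ?_ _ _
    fun_prop

/-- Sum over the primes. -/
theorem WK_sum (D δ : ℝ) (hδ : 0 < δ) (f : Nat.Primes → ℂ)
    (hf : ∀ p : Nat.Primes, ‖f p‖ ≤ D * Real.exp (-(1 + δ) * Real.log (p : ℕ))) :
    Summable (fun p : Nat.Primes => (Real.log (p : ℕ) : ℂ) * f p) ∧
    ‖∑' p : Nat.Primes, (Real.log (p : ℕ) : ℂ) * f p‖ ≤
      D * ∑' p : Nat.Primes, Real.log (p : ℕ) * Real.exp (-(1 + δ) * Real.log (p : ℕ)) := by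
  have h1 := (WK_summable δ hδ).mul_left D
  have h2 : ∀ p : Nat.Primes, ‖(Real.log (p : ℕ) : ℂ) * f p‖ ≤
      D * (Real.log (p : ℕ) * Real.exp (-(1 + δ) * Real.log (p : ℕ))) := by
    intro p
    have h3 : 0 ≤ Real.log (p : ℕ) := Real.log_nonneg (by exact_mod_cast p.2.one_lt.le)
    rw [norm_mul, Complex.norm_real, Real.norm_eq_abs, abs_of_nonneg h3]
    calc Real.log (p : ℕ) * ‖f p‖ ≤ Real.log (p : ℕ) * (D * Real.exp (-(1 + δ) * Real.log (p : ℕ))) :=
          mul_le_mul_of_nonneg_left (hf p) h3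
      _ = _ := by ring
  refine ⟨Summable.of_norm_bounded h1 h2, ?_⟩
  rw [← tsum_mul_left]
  exact tsum_of_norm_bounded h1.hasSum h2

theorem WK_w_prime (k : ℕ) (s : ℂ) (p : Nat.Primes) :
    w k s (Real.log (p : ℕ)) =
      ((Real.log (p : ℕ) : ℂ) ^ k / (k.factorial : ℂ)) * ((p : ℕ) : ℂ) ^ (-s) := by
  have hp : ((p : ℕ) : ℂ) ≠ 0 := by exact_mod_cast p.2.ne_zero
  unfold w
  rw [Complex.cpow_def_of_ne_zero hp, ← Complex.natCast_log, mul_comm (-s)]

theorem WK_norm_w (k : ℕ) (σ t y : ℝ) (hy : 0 ≤ y) :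
    ‖w k ((σ : ℂ) + t * I) y‖ = y ^ k / k.factorial * Real.exp (-(σ * y)) := by
  unfold w
  rw [norm_mul, norm_div, norm_pow, Complex.norm_real, Real.norm_eq_abs, abs_of_nonneg hy,
    Complex.norm_natCast, Complex.norm_exp]
  congr 2
  simp

theorem WK_gamma (k : ℕ) (c : ℝ) (hc : 0 < c) :
    IntegrableOn (fun y : ℝ => y ^ k / k.factorial * Real.exp (-(c * y))) (Set.Ioi 0) ∧
    ∫ y in Set.Ioi (0 : ℝ), y ^ k / k.factorial * Real.exp (-(c * y)) = (c ^ (k + 1))⁻¹ := by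
  have h0 : (k.factorial : ℝ) ≠ 0 := by exact_mod_cast k.factorial_ne_zero
  have h1 : IntegrableOn (fun y : ℝ => y ^ (k : ℝ) * Real.exp (-c * y ^ (1 : ℝ))) (Set.Ioi 0) :=
    integrableOn_rpow_mul_exp_neg_mul_rpow (by have := k.cast_nonneg (α := ℝ); linarith) zero_lt_one hc
  have h2 : ∀ y ∈ Set.Ioi (0 : ℝ), y ^ (k : ℝ) * Real.exp (-c * y ^ (1 : ℝ)) * (k.factorial : ℝ)⁻¹ =
      y ^ k / k.factorial * Real.exp (-(c * y)) := by
    intro y hy
    rw [Real.rpow_one, Real.rpow_natCast, neg_mul]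
    field_simp
  have h3 := h1.mul_const (k.factorial : ℝ)⁻¹
  refine ⟨IntegrableOn.congr_fun h3 h2 measurableSet_Ioi, ?_⟩
  rw [← setIntegral_congr_fun measurableSet_Ioi h2]
  rw [integral_mul_const]
  have h4 : ∫ y in Set.Ioi (0 : ℝ), y ^ (k : ℝ) * Real.exp (-c * y ^ (1 : ℝ)) =
      (1 / c) ^ ((k : ℝ) + 1) * Real.Gamma ((k : ℝ) + 1) := by
    rw [← Real.integral_rpow_mul_exp_neg_mul_Ioi (by positivity) hc]
    refine setIntegral_congr_fun measurableSet_Ioi fun y hy => ?_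
    show y ^ (k : ℝ) * Real.exp (-c * y ^ (1 : ℝ)) = y ^ ((k : ℝ) + 1 - 1) * Real.exp (-(c * y))
    rw [Real.rpow_one, add_sub_cancel_right, neg_mul]
  rw [h4, Real.Gamma_nat_eq_factorial]
  rw [show ((k : ℝ) + 1) = ((k + 1 : ℕ) : ℝ) by push_cast; ring, Real.rpow_natCast]
  rw [one_div, inv_pow, mul_assoc, mul_inv_cancel₀ h0, mul_one]

theorem WK (hPT : PT_stmt) (hEX : EX_stmt) : WK_stmt := by
  intro Lam δ hLam hδ hδ'
  obtain ⟨C0, hC0, hP⟩ := hPT Lam hLam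
  set E : ℝ := ∑' p : Nat.Primes, Real.log (p : ℕ) * Real.exp (-(1 + δ) * Real.log (p : ℕ)) with hE
  have hE0 : 0 ≤ E := by
    rw [hE]
    refine tsum_nonneg fun p => ?_
    exact mul_nonneg (Real.log_nonneg (by exact_mod_cast p.2.one_lt.le)) (Real.exp_pos _).le
  refine ⟨3 * C0 * E + 4, by positivity, ?_⟩
  intro g M b σ t φ k hg hφ hM hb hσ hσL hLq
  set A : ℝ := ∫ u in (0 : ℝ)..(1 / 4), φ u * u with hA
  have hA0 : 0 ≤ A := by
    rw [hA]
    refine intervalIntegral.integral_nonneg (by norm_num) fun u hu => ?_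
    exact mul_nonneg (hφ.nonneg u) hu.1
  set R : ℝ := ((σ - 1 - δ) ^ k)⁻¹ with hR
  have hR0 : 0 ≤ R := by
    rw [hR]
    have : 0 < σ - 1 - δ := by linarith
    positivity
  have hlog : ∀ p : Nat.Primes, (1 : ℝ) / 4 ≤ Real.log (p : ℕ) := by
    intro p
    have h1 : Real.log 2 ≤ Real.log (p : ℕ) := by
      apply Real.log_le_log (by norm_num)
      exact_mod_cast p.2.two_le
    have := Real.log_two_gt_d9
    linarith
  -- estimate for general s
  have key : ∀ τ : ℝ, ‖(∑' p : Nat.Primes, (Real.log (p : ℕ) : ℂ) * Jk k ((σ : ℂ) + τ * I) φ (Real.log (p : ℕ))) -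
      fp k ((σ : ℂ) + τ * I) * Ph ((σ : ℂ) + τ * I) φ‖ ≤ A * (C0 * R) * E := by
    intro τ
    set s : ℂ := (σ : ℂ) + τ * I with hs
    have hre : s.re = σ := by simp [hs]
    have h1 : ∀ p : Nat.Primes, ‖Jk k s φ (Real.log (p : ℕ)) - w k s (Real.log (p : ℕ)) * Ph s φ‖ ≤
        (A * (C0 * R)) * Real.exp (-(1 + δ) * Real.log (p : ℕ)) := by
      intro p
      have h2 := WK_J C0 k δ (Real.log (p : ℕ)) g s φ hφ
        (fun u hu0 hu1 => (hP k δ (Real.log (p : ℕ)) u s hδ (by linarith) (by rw [hre]; exact hσ)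
          (by rw [hre]; exact hσL) hu0 hu1 (hu1.trans (hlog p))).1)
      rw [hre] at h2
      calc _ ≤ _ := h2
        _ = _ := by rw [← hA, ← hR]; ring
    obtain ⟨h3, h4⟩ := WK_sum _ δ hδ _ h1
    obtain ⟨_, h5, _⟩ := hEX g φ k s hg hφ (by rw [hre]; exact hσ)
    have h6 : (fun p : Nat.Primes => (Real.log (p : ℕ) : ℂ) * (w k s (Real.log (p : ℕ)) * Ph s φ)) =
        fun p : Nat.Primes => (Real.log (p : ℕ) : ℂ) * Jk k s φ (Real.log (p : ℕ)) -
          (Real.log (p : ℕ) : ℂ) * (Jk k s φ (Real.log (p : ℕ)) - w k s (Real.log (p : ℕ)) * Ph s φ) := by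
      funext p
      ring
    have h7 : Summable (fun p : Nat.Primes => (Real.log (p : ℕ) : ℂ) * (w k s (Real.log (p : ℕ)) * Ph s φ)) := by
      rw [h6]
      exact h5.sub h3
    have h8 : fp k s * Ph s φ = ∑' p : Nat.Primes, (Real.log (p : ℕ) : ℂ) * (w k s (Real.log (p : ℕ)) * Ph s φ) := by
      unfold fp
      rw [← tsum_mul_right]
      refine tsum_congr fun p => ?_
      rw [WK_w_prime]
      ring
    rw [h8, ← h5.tsum_sub h7]
    have h9 : (fun p : Nat.Primes => (Real.log (p : ℕ) : ℂ) * Jk k s φ (Real.log (p : ℕ)) -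
        (Real.log (p : ℕ) : ℂ) * (w k s (Real.log (p : ℕ)) * Ph s φ)) =
        fun p : Nat.Primes => (Real.log (p : ℕ) : ℂ) * (Jk k s φ (Real.log (p : ℕ)) - w k s (Real.log (p : ℕ)) * Ph s φ) := by
      funext p
      ring
    rw [h9]
    exact h4
  -- the real case
  have key2 : ‖∑' p : Nat.Primes, (Real.log (p : ℕ) : ℂ) * Jk k (σ : ℂ) φ (Real.log (p : ℕ))‖ ≤
      2 * (A * (C0 * R)) * E := by
    have h1 : ∀ p : Nat.Primes, ‖Jk k (σ : ℂ) φ (Real.log (p : ℕ))‖ ≤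
        (2 * (A * (C0 * R))) * Real.exp (-(1 + δ) * Real.log (p : ℕ)) := by
      intro p
      have hP' := fun (u : ℝ) (hu0 : 0 ≤ u) (hu1 : u ≤ 1 / 4) =>
        hP k δ (Real.log (p : ℕ)) u (σ : ℂ) hδ (by linarith) (by rw [Complex.ofReal_re]; exact hσ)
          (by rw [Complex.ofReal_re]; exact hσL) hu0 hu1 (hu1.trans (hlog p))
      have h2 := WK_J C0 k δ (Real.log (p : ℕ)) g (σ : ℂ) φ hφ (fun u hu0 hu1 => (hP' u hu0 hu1).1)
      have h3 := WK_J2 C0 k δ (Real.log (p : ℕ)) g σ φ hφ (by linarith)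
        (fun u hu0 hu1 => by
          have := (hP' u hu0 hu1).2
          rw [Complex.ofReal_re] at this
          exact this)
      rw [Complex.ofReal_re] at h2
      have h4 : Jk k (σ : ℂ) φ (Real.log (p : ℕ)) =
          (Jk k (σ : ℂ) φ (Real.log (p : ℕ)) - w k (σ : ℂ) (Real.log (p : ℕ)) * Ph (σ : ℂ) φ) +
          w k (σ : ℂ) (Real.log (p : ℕ)) * Ph (σ : ℂ) φ := by ring
      rw [h4]
      refine (norm_add_le _ _).trans ((add_le_add h2 h3).trans_eq ?_)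
      rw [← hA, ← hR]
      ring
    exact (WK_sum _ δ hδ _ h1).2
  -- the integrals
  obtain ⟨i1, _, i3⟩ := hEX g φ k ((σ : ℂ) + t * I) hg hφ (by simp; exact hσ)
  obtain ⟨j1, _, j3⟩ := hEX g φ k (σ : ℂ) hg hφ (by rw [Complex.ofReal_re]; exact hσ)
  have hσb : 0 < σ - b := by linarith
  obtain ⟨g1, g2⟩ := WK_gamma k (σ - b) hσb
  have hwr : ∀ y : ℝ, w k (σ : ℂ) y = ((y ^ k / k.factorial * Real.exp (-(σ * y)) : ℝ) : ℂ) := by
    intro y
    unfold w
    push_cast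
    rw [neg_mul]
  have hre2 : (fun y : ℝ => w k (σ : ℂ) y * (Lq φ y : ℂ)) =
      fun y : ℝ => (((y ^ k / k.factorial * Real.exp (-(σ * y))) * Lq φ y : ℝ) : ℂ) := by
    funext y
    rw [hwr y]
    push_cast
    ring
  rw [hre2] at j1 j3
  have j4 : IntegrableOn (fun y : ℝ => (y ^ k / k.factorial * Real.exp (-(σ * y))) * Lq φ y) (Set.Ioi 0) := by
    refine Integrable.congr (Integrable.re j1) (ae_of_all _ fun y => ?_)
    exact Complex.ofReal_re _
  have j5 : |∫ y in Set.Ioi (0 : ℝ), (y ^ k / k.factorial * Real.exp (-(σ * y))) * Lq φ y| ≤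
      2 * (A * (C0 * R)) * E := by
    have h1 := key2
    rw [← j3, integral_complex_ofReal, Complex.norm_real, Real.norm_eq_abs] at h1
    exact h1
  have hmain : ‖∫ y in Set.Ioi (0 : ℝ), w k ((σ : ℂ) + t * I) y * (Lq φ y : ℂ)‖ ≤
      2 * (A * (C0 * R)) * E + 2 * M * ((σ - b) ^ (k + 1))⁻¹ := by
    have h1 : ∀ y ∈ Set.Ioi (0 : ℝ), ‖w k ((σ : ℂ) + t * I) y * (Lq φ y : ℂ)‖ ≤
        (y ^ k / k.factorial * Real.exp (-(σ * y))) * Lq φ y +
          2 * M * (y ^ k / k.factorial * Real.exp (-((σ - b) * y))) := by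
      intro y hy
      have hy0 : (0 : ℝ) < y := hy
      rw [norm_mul, WK_norm_w k σ t y hy0.le, Complex.norm_real, Real.norm_eq_abs]
      have h2 := hLq y hy0.le
      have h3 : |Lq φ y| ≤ Lq φ y + 2 * (M * Real.exp (b * y)) := by
        have h4 : 0 ≤ M * Real.exp (b * y) := mul_nonneg hM (Real.exp_pos _).le
        rw [abs_le]
        constructor <;> linarith
      have h5 : 0 ≤ y ^ k / k.factorial * Real.exp (-(σ * y)) := by positivity
      calc _ ≤ (y ^ k / k.factorial * Real.exp (-(σ * y))) * (Lq φ y + 2 * (M * Real.exp (b * y))) :=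
            mul_le_mul_of_nonneg_left h3 h5
        _ = _ := by
            have h6 : Real.exp (-((σ - b) * y)) = Real.exp (-(σ * y)) * Real.exp (b * y) := by
              rw [← Real.exp_add]
              congr 1
              ring
            rw [h6]
            ring
    have h2 : IntegrableOn (fun y : ℝ => (y ^ k / k.factorial * Real.exp (-(σ * y))) * Lq φ y +
          2 * M * (y ^ k / k.factorial * Real.exp (-((σ - b) * y)))) (Set.Ioi 0) :=
      j4.add (g1.const_mul (2 * M))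
    calc _ ≤ ∫ y in Set.Ioi (0 : ℝ), ((y ^ k / k.factorial * Real.exp (-(σ * y))) * Lq φ y +
          2 * M * (y ^ k / k.factorial * Real.exp (-((σ - b) * y)))) := by
          refine (norm_integral_le_integral_norm _).trans ?_
          exact setIntegral_mono_on i1.norm h2 measurableSet_Ioi h1
      _ = (∫ y in Set.Ioi (0 : ℝ), (y ^ k / k.factorial * Real.exp (-(σ * y))) * Lq φ y) +
          2 * M * ((σ - b) ^ (k + 1))⁻¹ := by
          rw [integral_add j4 (g1.const_mul (2 * M)), integral_const_mul, g2]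
      _ ≤ _ := by
          have := (abs_le.mp j5).2
          linarith
  rw [i3] at hmain
  have h1 := key t
  rw [← norm_mul]
  have h2 : fp k ((σ : ℂ) + t * I) * Ph ((σ : ℂ) + t * I) φ =
      (∑' p : Nat.Primes, (Real.log (p : ℕ) : ℂ) * Jk k ((σ : ℂ) + t * I) φ (Real.log (p : ℕ))) -
      ((∑' p : Nat.Primes, (Real.log (p : ℕ) : ℂ) * Jk k ((σ : ℂ) + t * I) φ (Real.log (p : ℕ))) -
      fp k ((σ : ℂ) + t * I) * Ph ((σ : ℂ) + t * I) φ) := by ring
  have h3 : ‖fp k ((σ : ℂ) + t * I) * Ph ((σ : ℂ) + t * I) φ‖ ≤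
      (2 * (A * (C0 * R)) * E + 2 * M * ((σ - b) ^ (k + 1))⁻¹) + A * (C0 * R) * E := by
    rw [h2]
    exact (norm_sub_le _ _).trans (add_le_add hmain h1)
  have h4 : ((σ - b) ^ (k + 1))⁻¹ ≤ 2 * ((σ - b) ^ k)⁻¹ := by
    rw [pow_succ, mul_inv, mul_comm]
    have h5 : (σ - b)⁻¹ ≤ 2 := by
      rw [inv_le_comm₀ hσb (by norm_num)]
      linarith
    exact mul_le_mul_of_nonneg_right h5 (by positivity)
  have h5 : 0 ≤ ((σ - b) ^ k)⁻¹ := by positivity
  have h6 : 2 * M * ((σ - b) ^ (k + 1))⁻¹ ≤ 4 * (M * ((σ - b) ^ k)⁻¹) := by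
    calc 2 * M * ((σ - b) ^ (k + 1))⁻¹ ≤ 2 * M * (2 * ((σ - b) ^ k)⁻¹) :=
          mul_le_mul_of_nonneg_left h4 (by positivity)
      _ = _ := by ring
  have h7 : 0 ≤ A * R := mul_nonneg hA0 hR0
  have h8 : 0 ≤ M * ((σ - b) ^ k)⁻¹ := mul_nonneg hM h5
  have h9 : 0 ≤ 3 * C0 * E := by positivity
  calc _ ≤ _ := h3
    _ ≤ 3 * C0 * E * (A * R) + 4 * (M * ((σ - b) ^ k)⁻¹) := by
        have : A * (C0 * R) * E = C0 * E * (A * R) := by ring
        nlinarith [h6]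
    _ ≤ (3 * C0 * E + 4) * (A * R + M * ((σ - b) ^ k)⁻¹) := by
        nlinarith [mul_nonneg h9 h8, h7]

end Pool.Agent.QZ
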